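import Mathlib
import Pool.Agent.H861.CE.Final2

/-!
# Curve degrees on very general complete intersections: all degrees in a fixed sublattice, up to a bounded factor

Let `X` be a very general complete intersection of degrees `d_1, ..., d_r` in `P^(n+r)` over `ℂ`, `n ≥ 2`. The question is whether
`d_1 ⋯ d_r` divides the degree of every curve on `X` if all `d_i` are large.

**Theorem.** Put `N = n · n! · 2^n` and `C = ∏_{p ≤ n} p^((2n + rn + r) ⌊log_p n⌋)` (primes `p`).

1. For ALL integers `q_i ≥ 1` and `x_i ≥ n`: the product `q_1 ⋯ q_r` divides `C · deg` for every curve on a very general complete intersection of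
   the degrees `d_i = n! 2^n q_i x_i`; it divides `deg` if all prime factors of the `q_i` are larger than `n`.
2. In particular, if all `d_i` are multiples of `N`, then `d_1 ⋯ d_r` divides `N^r C · deg` for every curve on `X`: on the sublattice `(N ℤ)^r` of
   all tuples the asked divisibility holds up to a factor which depends only on `n` and `r`, however large the prime powers in the `d_i` are.

For `r = 1` results of this kind follow from abelian varieties of type `(1, ..., 1, δ)` (Debarre, Hulek, Spandaw; Paulsen). For `r ≥ 2` the powers of a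
prime in all `d_i` are collected at the same time. In the earlier hand-in `BoundedFactor` the degrees had to be larger than a power of the prime
powers which are collected; here they are linear in them.

Proof. One example of forms `f_1, ..., f_r` is enough. `P^n` is the symmetric product of `n` projective lines with coordinates `u_j`. For `δ = p^s` there are
polynomials `D` of degree `δ` near the Dickson polynomial `w^δ + w^(-δ)`, `u = w + 1/w`, with `D^2 - 4 = Q B^2`, `Q` squarefree of degree `4` (elliptic curves with a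
point of order `δ`; constructed over power series). With generic such `D_{k,j}` let `h_{k,j} + 1/h_{k,j} = D_{k,j}(u_j)`, `R_k^δ_k = ∏_j h_{k,j}`. On the elliptic curve `y^2 = Q`
the function `h` has divisor `δ (P - P')`, so it is the `δ`-th power of a form `ρ` of degree ONE; `τ` is another form of degree one of the same weight.
The `k`-th form is the norm of `z_k^m - ∑_{c=1}^n ∏_j (ρ_j + c τ_j)^c (a_j - μ_{j,c} b_j)^(m-c)`; it has degree `m δ n! 2^n`. On every curve (also in the singular loci and at
infinity) `R_k` satisfies an equation of degree at most `n` over the function field. At a place of `ℂ` where `D_{k,j}` becomes the Dickson polynomial for `j ≠ i`, what remains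
is the Kummer extension by the `δ_k`-th roots of the `h_{k,i}`, whose degree is divisible by `∏ δ_k`.

A curve is a homogeneous prime `I` with `dim ℂ[x]/I = 2`, its degree is the eventual value of the difference of the Hilbert function; very
general means: off the zeros of countably many nonzero polynomials in the coefficients (as in the frozen statement S00299).
-/

set_option autoImplicit false

open MvPolynomial

namespace Pool.Agent.Results.MP_8dbee4_ag.AllMultiples

/-- the Hilbert function of the quotient by `I` -/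
noncomputable def hilb {N : ℕ} (I : Ideal (MvPolynomial (Fin (N + 1)) ℂ)) (k : ℕ) : ℕ :=
  Module.finrank ℂ (Submodule.map (Ideal.Quotient.mkₐ ℂ I).toLinearMap
    (homogeneousSubmodule (Fin (N + 1)) ℂ k))

/-- For very general forms `f_i` of degrees `d_i` in `N + 1` variables, all curves on which they vanish have degrees `e` with
`m ∣ C * e`. -/
def EveryCurve (N : ℕ) {r : ℕ} (d : Fin r → ℕ) (C m : ℕ) : Prop :=
  ∃ bad : ℕ → MvPolynomial (Σ i : Fin r, {μ : Fin (N + 1) →₀ ℕ // μ.degree = d i}) ℂ,
    (∀ j, bad j ≠ 0) ∧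
    ∀ f : Fin r → MvPolynomial (Fin (N + 1)) ℂ, (∀ i, (f i).IsHomogeneous (d i)) →
      (∀ j, eval (fun x => coeff x.2.1 (f x.1)) (bad j) ≠ 0) →
      ∀ I : Ideal (MvPolynomial (Fin (N + 1)) ℂ),
        (∀ p ∈ I, ∀ k : ℕ, homogeneousComponent k p ∈ I) → I.IsPrime →
        ringKrullDim (MvPolynomial (Fin (N + 1)) ℂ ⧸ I) = 2 → (∀ i, f i ∈ I) →
        ∃ K : ℕ, ∀ k : ℕ, K ≤ k → (m : ℤ) ∣ (C : ℤ) * ((hilb I (k + 1) : ℤ) - (hilb I k : ℤ))

/-- the factor `C(n, r)`; all its prime factors are `≤ n` -/
def factor (n r : ℕ) : ℕ :=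
  ∏ p ∈ (Finset.range (n + 1)).filter Nat.Prime, p ^ ((n + n + r * n + r) * Nat.log p n)

/-- the number `N(n) = n · n! · 2^n` -/
def level (n : ℕ) : ℕ := n * (n.factorial * 2 ^ n)

lemma every_of_div {N r m : ℕ} {d : Fin r → ℕ} (h : Pool.Agent.Q271.CI.Div N d m) : EveryCurve N d 1 m := by
  obtain ⟨bad, hb, hf⟩ := Pool.Agent.Q271.CI.literal h
  refine ⟨bad, hb, fun f h1 h2 I h3 h4 h5 h6 => ?_⟩
  obtain ⟨K, hK⟩ := hf f h1 h2 I h3 h4 h5 h6
  refine ⟨K, fun k hk => ?_⟩
  rw [Nat.cast_one, one_mul]
  exact hK k hk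

lemma every_mul {N r m C c : ℕ} {d : Fin r → ℕ} (h : EveryCurve N d C m) : EveryCurve N d (c * C) (c * m) := by
  obtain ⟨bad, hb, hf⟩ := h
  refine ⟨bad, hb, fun f h1 h2 I h3 h4 h5 h6 => ?_⟩
  obtain ⟨K, hK⟩ := hf f h1 h2 I h3 h4 h5 h6
  refine ⟨K, fun k hk => ?_⟩
  rw [Nat.cast_mul, Nat.cast_mul, mul_assoc]
  exact mul_dvd_mul_left _ (hK k hk)

lemma every_of_div_gcd {N r m C : ℕ} {d : Fin r → ℕ}
    (h : Pool.Agent.Q271.CI.Div N d (m / Nat.gcd m C)) : EveryCurve N d C m := by
  obtain ⟨bad, hb, hf⟩ := Pool.Agent.Q271.CI.literal h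
  refine ⟨bad, hb, fun f h1 h2 I h3 h4 h5 h6 => ?_⟩
  obtain ⟨K, hK⟩ := hf f h1 h2 I h3 h4 h5 h6
  refine ⟨K, fun k hk => ?_⟩
  have h7 := hK k hk
  have h8 : (m : ℤ) = (Nat.gcd m C : ℤ) * ((m / Nat.gcd m C : ℕ) : ℤ) := by
    rw [← Nat.cast_mul, Nat.mul_div_cancel' (Nat.gcd_dvd_left m C)]
  rw [h8]
  exact mul_dvd_mul (Int.natCast_dvd_natCast.2 (Nat.gcd_dvd_right m C)) h7

/-- **Theorem.** See the header. -/
theorem result : ∀ n r : ℕ, 2 ≤ n →
    -- (0) the factor has only prime factors `≤ n`
    (∀ p : ℕ, p.Prime → n < p → ¬ p ∣ factor n r) ∧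
    -- (1) degrees `n! 2^n q_i x_i` with `x_i ≥ n`
    (∀ q x : Fin r → ℕ, (∀ i, 0 < q i ∧ n ≤ x i) →
      EveryCurve (n + r) (fun i => n.factorial * 2 ^ n * (q i * x i)) (factor n r) (∏ i, q i)) ∧
    -- (2) all tuples of multiples of `N`
    (∀ d : Fin r → ℕ, (∀ i, 0 < d i ∧ level n ∣ d i) →
      EveryCurve (n + r) d (level n ^ r * factor n r) (∏ i, d i)) := by
  intro n r hn
  have hfac : factor n r = Pool.Agent.H861.CE.C2 n r := rfl
  have h1 : ∀ q x : Fin r → ℕ, (∀ i, 0 < q i ∧ n ≤ x i) →
      EveryCurve (n + r) (fun i => n.factorial * 2 ^ n * (q i * x i)) (factor n r) (∏ i, q i) := fun q x hqx =>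
    every_of_div_gcd (Pool.Agent.H861.CE.div_linear hn q x (fun i => (hqx i).1) (fun i => (hqx i).2))
  refine ⟨?_, h1, ?_⟩
  · intro p hp hpn h
    have h1 := Pool.Agent.H861.CE.C2_fact (n := n) (r := r) hp
    rw [Pool.Agent.H861.CE.loss_eq_zero hpn] at h1
    rw [hfac] at h
    have := hp.factorization_pos_of_dvd (Pool.Agent.H861.CE.C2_pos n r).ne' h
    omega
  · intro d hd
    choose hd0 q hq using hd
    have hq0 : ∀ i, 0 < q i := fun i => Nat.pos_of_ne_zero fun h0 => by
      have := hd0 i
      rw [hq i, h0, mul_zero] at this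
      exact lt_irrefl _ this
    have h2 := every_mul (c := level n ^ r) (h1 q (fun _ => n) (fun i => ⟨hq0 i, le_rfl⟩))
    have h3 : (fun i => n.factorial * 2 ^ n * (q i * n)) = d := by
      funext i
      rw [hq i]
      unfold level
      ring
    have h4 : level n ^ r * ∏ i, q i = ∏ i, d i := by
      rw [Finset.prod_congr rfl fun i _ => hq i, Finset.prod_mul_distrib, Finset.prod_const,
        Finset.card_univ, Fintype.card_fin]
    rw [h3, h4] at h2
    exact h2

end Pool.Agent.Results.MP_8dbee4_ag.AllMultiples
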