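import Mathlib
import Pool.Agent.H861.CD.Final

/-!
# Curve degrees on very general complete intersections: all moduli, up to a factor which depends only on `n` and `r`

Let `X` be a very general complete intersection of degrees `d_1, ..., d_r` in `P^(n+r)` over `ℂ`, `n ≥ 2`. The question is whether
`d_1 ⋯ d_r` divides the degree of every curve on `X` if all `d_i` are large.

**Theorem.** There is an explicit number `C = C(n, r)`, whose prime factors are at most `n`, with the following properties.

1. (All moduli.) For all integers `q_1, ..., q_r ≥ 1` there is `D` such that for all multiples `d_i ≥ D` of the `q_i` the product `q_1 ⋯ q_r`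
   divides `C · deg` for every curve on `X`. So `q_1 ⋯ q_r` divides the degree of every curve if all prime factors of the `q_i` are larger
   than `n`.
2. (Explicit form.) The power `p ^ b` of a prime divides the degrees of all curves on `X` if there are exponents `a_i` such that `p ^ a_i ∣ d_i`
   and `d_i ≥ (p^a_i + 1) p^a_i n! 2^n p^(n (a_1 + ... + a_r + n))` whenever `a_i > 0`, and `b + v_p(C) ≤ a_1 + ... + a_r`. Here `v_p(C) = 0` for `p > n`.
3. (The question itself, for a positive proportion.) There are `c > 0` and `D₀` such that for all `D ≥ D₀` at least `c D^r` of the `D^r` tuples with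
   `1 ≤ d_i ≤ D` satisfy: `d_i ≥ √D`, and the full product `d_1 ⋯ d_r` divides the degree of every curve on `X`.

For `r = 1` and prime factors larger than `n` results of this kind are due to Paulsen (after Kollár). For `r ≥ 2` the point is that a prime may divide
several of the degrees: the powers of `p` in all `d_i` are collected at the same time, which products of examples do not give.

Proof. By the theorem of the starting files (`OneExampleSuffices`) one example `f_1, ..., f_r` of forms with the right powers of `p` in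
their degrees is enough. The example: `P^n` is the symmetric product of `n` projective lines with the coordinates `u_j`; for algebraically
independent `t_{k,j}` let `w_j + 1/w_j = u_j`, `h_{k,j} + 1/h_{k,j} = w_j^δ_k + w_j^(-δ_k) + t_{k,j}`, `δ_k = p^s_k`, and `R_k^δ_k = ∏_j h_{k,j}`; the `k`-th form is
the norm of `z_k^(δ_k+1) - ∑_{c=1}^n ∏_j (...)`, where the sum is a section which contains `n` different powers of `R_k`, so that on every curve (also in
the singular loci and at infinity) `R_k` satisfies an equation of degree at most `n`. If `t_{k,j}`, `j ≠ i`, specialises to `0` then `h_{k,j}` becomes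
`w_j^(± δ_k)` at all places, and what remains is the Kummer extension of `κ(w_i)` by the `δ_k`-th roots of the `h_{k,i}`, which has degree divisible by
`∏ δ_k` (Dickson polynomials). The degree of a curve is the degree of a function `∏_j (u_j - c_1)/(u_j - c_2)`, the sum of the degrees of the `u_j`.

A curve is a homogeneous prime `I` with `dim ℂ[x]/I = 2`, its degree is the eventual value of the difference of the Hilbert function; very
general means: off the zeros of countably many nonzero polynomials in the coefficients (as in the frozen statement S00299).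
-/

set_option autoImplicit false

open MvPolynomial

namespace Pool.Agent.Results.MP_8dbee4_ag.BoundedFactor

/-- the Hilbert function of the quotient by `I` -/
noncomputable def hilb {N : ℕ} (I : Ideal (MvPolynomial (Fin (N + 1)) ℂ)) (k : ℕ) : ℕ :=
  Module.finrank ℂ (Submodule.map (Ideal.Quotient.mkₐ ℂ I).toLinearMap
    (homogeneousSubmodule (Fin (N + 1)) ℂ k))

/-- For very general forms `f_i` of degrees `d_i` in `N + 1` variables, all curves on which they vanish have degrees `e` with
`m ∣ C * e`. -/
def EveryCurve (N : ℕ) {r : ℕ} (d : Fin r → ℕ) (C m : ℕ) : Prop :=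
  ∃ bad : ℕ → MvPolynomial (Σ i : Fin r, {μ : Fin (N + 1) →₀ ℕ // μ.degree = d i}) ℂ,
    (∀ j, bad j ≠ 0) ∧
    ∀ f : Fin r → MvPolynomial (Fin (N + 1)) ℂ, (∀ i, (f i).IsHomogeneous (d i)) →
      (∀ j, eval (fun x => coeff x.2.1 (f x.1)) (bad j) ≠ 0) →
      ∀ I : Ideal (MvPolynomial (Fin (N + 1)) ℂ),
        (∀ p ∈ I, ∀ k : ℕ, homogeneousComponent k p ∈ I) → I.IsPrime →
        ringKrullDim (MvPolynomial (Fin (N + 1)) ℂ ⧸ I) = 2 → (∀ i, f i ∈ I) →
        ∃ K : ℕ, ∀ k : ℕ, K ≤ k → (m : ℤ) ∣ (C : ℤ) * ((hilb I (k + 1) : ℤ) - (hilb I k : ℤ))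

/-- the exponent of the prime `p` in the factor `C(n, r)`; it is `0` for `p > n` -/
def lossExp (n r p : ℕ) : ℕ :=
  r * ((n.factorial * 2 ^ n).factorization p + Nat.log p n) + (n + n + r * n + r) * Nat.log p n

/-- the factor `C(n, r)` -/
def factor (n r : ℕ) : ℕ := ∏ p ∈ (Finset.range (n + 1)).filter Nat.Prime, p ^ lossExp n r p

lemma every_of_div {N r m : ℕ} {d : Fin r → ℕ} (h : Pool.Agent.Q271.CI.Div N d m) : EveryCurve N d 1 m := by
  obtain ⟨bad, hb, hf⟩ := Pool.Agent.Q271.CI.literal h
  refine ⟨bad, hb, fun f h1 h2 I h3 h4 h5 h6 => ?_⟩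
  obtain ⟨K, hK⟩ := hf f h1 h2 I h3 h4 h5 h6
  refine ⟨K, fun k hk => ?_⟩
  rw [Nat.cast_one, one_mul]
  exact hK k hk

lemma every_of_div_gcd {N r m C : ℕ} {d : Fin r → ℕ}
    (h : Pool.Agent.Q271.CI.Div N d (m / Nat.gcd m C)) : EveryCurve N d C m := by
  obtain ⟨bad, hb, hf⟩ := Pool.Agent.Q271.CI.literal h
  refine ⟨bad, hb, fun f h1 h2 I h3 h4 h5 h6 => ?_⟩
  obtain ⟨K, hK⟩ := hf f h1 h2 I h3 h4 h5 h6
  refine ⟨K, fun k hk => ?_⟩
  have h7 := hK k hk
  have h8 : (m : ℤ) = (Nat.gcd m C : ℤ) * ((m / Nat.gcd m C : ℕ) : ℤ) := by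
    rw [← Nat.cast_mul, Nat.mul_div_cancel' (Nat.gcd_dvd_left m C)]
  rw [h8]
  exact mul_dvd_mul (Int.natCast_dvd_natCast.2 (Nat.gcd_dvd_right m C)) h7

open Classical in
/-- **Theorem.** See the header. -/
theorem result : ∀ n r : ℕ, 2 ≤ n →
    -- (0) the factor has only prime factors `≤ n`
    (∀ p : ℕ, p.Prime → n < p → ¬ p ∣ factor n r) ∧
    -- (1) all moduli
    (∀ q : Fin r → ℕ, (∀ i, 0 < q i) → ∃ D : ℕ, ∀ d : Fin r → ℕ, (∀ i, q i ∣ d i ∧ D ≤ d i) →
      EveryCurve (n + r) d (factor n r) (∏ i, q i)) ∧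
    -- (2) explicit form
    (∀ (d a : Fin r → ℕ) (p b : ℕ), p.Prime → b + (factor n r).factorization p ≤ ∑ i, a i →
      (∀ i, a i ≠ 0 → p ^ a i ∣ d i ∧
        (p ^ a i + 1) * (p ^ a i * (n.factorial * 2 ^ n)) * p ^ (n * ((∑ j, a j) + n)) ≤ d i) →
      EveryCurve (n + r) d 1 (p ^ b)) ∧
    -- (3) the full divisibility for a positive proportion of all tuples
    (∃ c : ℝ, 0 < c ∧ ∃ D₀ : ℕ, ∀ D : ℕ, D₀ ≤ D →
      c * (D : ℝ) ^ r ≤ (((Fintype.piFinset fun _ : Fin r => Finset.Icc 1 D).filter fun d =>
        (∀ i, D ≤ d i ^ 2) ∧ EveryCurve (n + r) d 1 (∏ i, d i)).card : ℝ)) := by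
  intro n r hn
  have hfac : factor n r = Pool.Agent.H861.CD.CC n r := rfl
  refine ⟨?_, ?_, ?_, ?_⟩
  · intro p hp hpn h
    have h1 := Pool.Agent.H861.CD.CC_fact (r := r) hn hp
    rw [Pool.Agent.H861.CD.tot_eq_zero hn hp hpn] at h1
    rw [hfac] at h
    have := hp.factorization_pos_of_dvd (Pool.Agent.H861.CD.CC_pos n r).ne' h
    omega
  · intro q hq
    obtain ⟨D, hD⟩ := Pool.Agent.H861.CD.div_moduli (r := r) hn q hq
    refine ⟨D, fun d hd => ?_⟩
    exact every_of_div_gcd (hD d hd)
  · intro d a p b hp hb hd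
    refine every_of_div (Pool.Agent.H861.CD.div_dvd (pow_dvd_pow p ?_) (Pool.Agent.H861.CD.div_prime hn hp a d hd))
    rw [hfac, Pool.Agent.H861.CD.CC_fact hn hp] at hb
    omega
  · obtain ⟨c, hc, D₀, hD⟩ := Pool.Agent.H861.CD.div_density (r := r) hn
    refine ⟨c, hc, D₀, fun D hDD => (hD D hDD).trans ?_⟩
    exact_mod_cast Finset.card_le_card fun d hd => by
      rw [Finset.mem_filter] at hd ⊢
      exact ⟨hd.1, hd.2.1, every_of_div hd.2.2⟩

end Pool.Agent.Results.MP_8dbee4_ag.BoundedFactor
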